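import Pool.Agent.W606.PS.Stm

set_option autoImplicit false

/-!
The quotient graph of a layered partition has treewidth at most `3`, and the graph is contained in the
strong product of it, a path and a complete graph.
-/

namespace Pool.Agent.Y442.PS

open Pool.Agent.W606.PS

theorem blow (h2 : S_OUT) {V : Type} [Fintype V] (G : SimpleGraph V) (M c : ℕ) (hO : Out G M c) :
    ∃ (a : ℕ) (H : SimpleGraph (Fin a)), TD H 4 ∧
      ∃ f : V → (Fin a × Fin (M + 1)) × Fin c, Function.Injective f ∧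
        ∀ u v, G.Adj u v → (f u).1 = (f v).1 ∨
          (SP H (SimpleGraph.pathGraph (M + 1))).Adj (f u).1 (f v).1 := by
  classical
  obtain ⟨P, _, rk, C, part, lev, hM, hl, hcard, hrk, hC3, hCl, hadj⟩ := hO
  -- the index in the fibre
  have hg : ∀ p j, Nonempty ({v | part v = p ∧ lev v = j} ↪ Fin c) := by
    intro p j
    apply Function.Embedding.nonempty_of_card_le
    rw [Fintype.card_fin, ← Nat.card_eq_fintype_card, Nat.card_coe_set_eq]
    exact hcard p j
  let g : ∀ p j, {v | part v = p ∧ lev v = j} ↪ Fin c := fun p j => (hg p j).some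
  let idx : V → Fin c := fun v => g (part v) (lev v) ⟨v, rfl, rfl⟩
  have hidx : ∀ u p j (h : part u = p ∧ lev u = j), idx u = g p j ⟨u, h⟩ := by
    rintro u p j ⟨rfl, rfl⟩
    rfl
  have hinj : ∀ u v, part u = part v → lev u = lev v → idx u = idx v → u = v := by
    intro u v h1 h2 h3
    rw [hidx u (part v) (lev v) ⟨h1, h2⟩, hidx v (part v) (lev v) ⟨rfl, rfl⟩] at h3
    have := (g (part v) (lev v)).injective h3
    exact congrArg Subtype.val this
  -- the quotient by the parts and levels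
  let G' : SimpleGraph (P × Fin (M + 1)) := SimpleGraph.fromRel
    (fun x y => (x.1 = y.1 ∨ x.1 ∈ C y.1 ∨ y.1 ∈ C x.1) ∧ (x.2 : ℕ) ≤ y.2 + 1 ∧ (y.2 : ℕ) ≤ x.2 + 1)
  have hG' : ∀ x y, G'.Adj x y → (x.1 = y.1 ∨ x.1 ∈ C y.1 ∨ y.1 ∈ C x.1) ∧
      (x.2 : ℕ) ≤ y.2 + 1 := by
    intro x y h
    rw [SimpleGraph.fromRel_adj] at h
    rcases h.2 with ⟨h1, h2, -⟩ | ⟨h1, -, h3⟩
    · exact ⟨h1, h2⟩
    · refine ⟨?_, h3⟩
      rcases h1 with h | h | h
      · exact Or.inl h.symm
      · exact Or.inr (Or.inr h)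
      · exact Or.inr (Or.inl h)
  have hO' : Out G' M 1 := by
    refine ⟨P, inferInstance, rk, C, Prod.fst, fun x => (x.2 : ℕ), ?_, ?_, ?_, hrk, hC3, hCl, ?_⟩
    · intro x
      exact Nat.lt_succ_iff.1 x.2.2
    · intro x y h
      exact (hG' x y h).2
    · intro p j
      rw [Set.ncard_le_one_iff]
      rintro ⟨p1, j1⟩ ⟨p2, j2⟩ ⟨h1, h3⟩ ⟨h4, h5⟩
      simp only at h1 h3 h4 h5
      rw [h1, h4]
      congr 1
      exact Fin.ext (by rw [h3, h5])
    · intro x y h
      exact (hG' x y h).1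
  obtain ⟨a, H, hH, f, hf⟩ := h2 (P × Fin (M + 1)) G' M 1 hO'
  refine ⟨a, H, by simpa using hH,
    fun v => (f (part v, ⟨lev v, Nat.lt_succ_of_le (hM v)⟩), idx v), ?_, ?_⟩
  · intro u v huv
    have h1 := congrArg Prod.fst huv
    have h3 := congrArg Prod.snd huv
    have h4 := hf h1
    exact hinj u v (congrArg Prod.fst h4) (congrArg (fun x => (x.2 : ℕ)) h4) h3
  · intro u v huv
    by_cases h : (part u, (⟨lev u, Nat.lt_succ_of_le (hM u)⟩ : Fin (M + 1))) =
        (part v, ⟨lev v, Nat.lt_succ_of_le (hM v)⟩)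
    · left
      change f _ = f _
      rw [h]
    · right
      apply f.map_adj
      rw [SimpleGraph.fromRel_adj]
      exact ⟨h, Or.inl ⟨hadj u v huv, hl u v huv, hl v u huv.symm⟩⟩

end Pool.Agent.Y442.PS
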